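import Pool.Agent.Helper68.SG2.GoalsC
import Pool.Agent.Helper29.BL.PS

/-!
Packet SH2-BRNT (MP_a41896_nt, project SG, stage 2): norm of the bracket.
-/

set_option autoImplicit false

open MvPolynomial

namespace Pool.Agent.Helper87.SG2

open WeierstrassCurve Height
open Pool.Agent.Helper29.BL Pool.Agent.Helper92.Ru Pool.Agent.Helper42.SG
open Pool.Agent.Helper76.SGC (hz ho NFB)
open Pool.Agent.Helper77.SGC (N0)
open Pool.Agent.Helper68.SG2

theorem gmF_ineq (a L : ℝ) (q M g j : ℕ) (ha : 1 ≤ a) (hL : a ^ q ≤ L) (hg : g ≤ M)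
    (hj : j + q * g < q * (M + 1)) : L ^ g ≤ a ^ (q - 1) * L ^ M / a ^ j := by
  have ha0 : 0 < a := by linarith
  have hL1 : 1 ≤ L := (one_le_pow₀ ha).trans hL
  have hL0 : 0 < L := by linarith
  rw [le_div_iff₀ (pow_pos ha0 j)]
  have h1 : j ≤ (q - 1) + q * (M - g) := by
    obtain ⟨r, rfl⟩ := Nat.exists_eq_add_of_le hg
    rw [Nat.add_sub_cancel_left]
    have h2 : q * (g + r + 1) = q * g + q * r + q := by ring
    rw [h2] at hj
    omega
  have h2 : a ^ j ≤ a ^ (q - 1) * L ^ (M - g) := by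
    calc a ^ j ≤ a ^ ((q - 1) + q * (M - g)) := pow_le_pow_right₀ ha h1
      _ = a ^ (q - 1) * (a ^ q) ^ (M - g) := by rw [pow_add, pow_mul]
      _ ≤ a ^ (q - 1) * L ^ (M - g) := by gcongr
  calc L ^ g * a ^ j ≤ L ^ g * (a ^ (q - 1) * L ^ (M - g)) := by gcongr
    _ = a ^ (q - 1) * (L ^ g * L ^ (M - g)) := by ring
    _ = a ^ (q - 1) * L ^ M := by rw [← pow_add, Nat.add_sub_cancel' hg]

theorem gmT_ineq (a L : ℝ) (q M g j : ℕ) (ha : 1 ≤ a) (hL : 1 ≤ L) (hg : g ≤ M)
    (hj : j < q * (g + 1)) : (L / a ^ q) ^ g ≤ a ^ (q - 1) * L ^ M / a ^ j := by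
  have ha0 : 0 < a := by linarith
  have hL0 : 0 < L := by linarith
  have h1 : j ≤ (q - 1) + q * g := by
    have h2 : q * (g + 1) = q * g + q := by ring
    omega
  have h2 : a ^ j ≤ a ^ (q - 1) * (a ^ q) ^ g := by
    calc a ^ j ≤ a ^ ((q - 1) + q * g) := pow_le_pow_right₀ ha h1
      _ = a ^ (q - 1) * (a ^ q) ^ g := by rw [pow_add, pow_mul]
  have h3 : L ^ g ≤ L ^ M := pow_le_pow_right₀ hL hg
  rw [div_pow, div_le_div_iff₀ (pow_pos (pow_pos ha0 q) g) (pow_pos ha0 j)]
  calc L ^ g * a ^ j ≤ L ^ M * (a ^ (q - 1) * (a ^ q) ^ g) := by gcongr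
    _ = _ := by ring

theorem t_BRNT (h1 : NFB) : BRNT := by
  intro K _ T W B D n M δ e S hG hB hn hδ c v A _ _ N hN X Ψ a G L s b lam hBd hs μ i
  obtain ⟨hN0, _, hpow, hprod, hsum⟩ := h1 K v A N hN
  have ha := hBd.one_a
  -- `s` is nonnegative
  have hne : Nonempty (Idx n M δ e) := by
    have : Nonempty (Fin δ) := ⟨⟨0, hδ⟩⟩
    refine ⟨(fun h => (⟨0, by positivity⟩, ⟨0, by omega⟩), fun _ => Classical.choice this)⟩
  have hs0 : 0 ≤ s := by
    obtain ⟨α⟩ := hne
    exact (v.nonneg _).trans (hs α)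
  have ha0 : ∀ h : Fin (2 * n), 1 ≤ a (2 * n + h.val % 2) := fun h => ha _ (by omega)
  have hah : ∀ h : Fin (2 * n), 1 ≤ a h.val := fun h => ha _ (by omega)
  have hL1 : ∀ h : Fin (2 * n), T (h.val % 2) = true → 1 ≤ L h.val := by
    intro h hT
    cases hl : lam h.val with
    | true => exact (hBd.gmT h.val h.isLt hT hl).2.2
    | false => exact (one_le_pow₀ (hah h)).trans (hBd.gmF h.val h.isLt hT hl).2.2
  have hRf0 : ∀ h : Fin (2 * n), 0 ≤ RfB T n M e a L h.val (μ h) (i h) := by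
    intro h
    unfold RfB
    split_ifs with hT
    · have e1 := hah h
      have e2 := hL1 h hT
      have e3 : 0 ≤ a h.val := by linarith
      have e4 : 0 ≤ L h.val := by linarith
      positivity
    · exact pow_nonneg (zero_le_one.trans (ha0 h)) _
  -- the bound for one variable
  set Tb : Fin (2 * n) → ℝ := fun h => (B (h.val % 2) v) ^ (4 ^ e (h.val / 2) * (M + 1)) *
    RfB T n M e a L h.val (μ h) (i h) with hTb
  have hBp : ∀ h : Fin (2 * n), 0 ≤ (B (h.val % 2) v) ^ (4 ^ e (h.val / 2) * (M + 1)) :=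
    fun h => pow_nonneg (zero_le_one.trans (hB _ v)) _
  have hT0 : ∀ h, 0 ≤ Tb h := fun h => mul_nonneg (hBp h) (hRf0 h)
  have hterm : ∀ (α : Idx n M δ e) (h : Fin (2 * n)) (g : ℕ),
      N (algebraMap K A (S h.val (lam h.val) (μ h) (i h) g (α.1 h).1.val (α.1 h).2.val) *
        X (2 * n + h.val % 2) ^ g) (Tb h) := by
    intro α h g
    by_cases hz : S h.val (lam h.val) (μ h) (i h) g (α.1 h).1.val (α.1 h).2.val = 0
    · rw [hz, map_zero, zero_mul]
      exact hN.mono _ _ _ hN0 (hT0 h)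
    · have hbd := hG.bd h.val h.isLt (lam h.val) (μ h) (i h) g (α.1 h).1.val (α.1 h).2.val v
      cases hT : T (h.val % 2) with
      | true =>
        obtain ⟨_, hg, hF, hTr⟩ := hG.degG h.val h.isLt hT _ _ _ _ _ _ hz
        cases hl : lam h.val with
        | true =>
          rw [hl] at hTr hbd
          obtain ⟨_, hX, hL⟩ := hBd.gmT h.val h.isLt hT hl
          refine hN.mono _ _ _ (hN.mul _ _ _ _ (hN.const _) (hpow _ _ hX g)) ?_
          refine mul_le_mul hbd ?_ (pow_nonneg (div_nonneg (by linarith)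
            (pow_nonneg (zero_le_one.trans (hah h)) _)) _) (hBp h)
          unfold RfB
          rw [if_pos hT]
          exact gmT_ineq _ _ _ _ _ _ (hah h) hL hg (hTr rfl)
        | false =>
          rw [hl] at hF hbd
          obtain ⟨_, hX, hL⟩ := hBd.gmF h.val h.isLt hT hl
          refine hN.mono _ _ _ (hN.mul _ _ _ _ (hN.const _) (hpow _ _ hX g)) ?_
          refine mul_le_mul hbd ?_ (pow_nonneg (zero_le_one.trans (hL1 h hT)) _) (hBp h)
          unfold RfB
          rw [if_pos hT]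
          exact gmF_ineq _ _ _ _ _ _ (hah h) hL hg (hF rfl)
      | false =>
        obtain ⟨_, hdeg⟩ := hG.degE h.val h.isLt hT _ _ _ _ _ _ hz
        refine hN.mono _ _ _ (hN.mul _ _ _ _ (hN.const _) (hpow _ _
          (hBd.ref (h.val % 2) (by omega)) g)) ?_
        refine mul_le_mul hbd ?_ (pow_nonneg (zero_le_one.trans (ha0 h)) _) (hBp h)
        unfold RfB
        rw [if_neg (by rw [hT]; exact Bool.false_ne_true)]
        exact pow_le_pow_right₀ (ha0 h) (by omega)
  have hS : ∀ (α : Idx n M δ e) (h : Fin (2 * n)),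
      N (∑ g ∈ Finset.range (2 * M + 1),
        algebraMap K A (S h.val (lam h.val) (μ h) (i h) g (α.1 h).1.val (α.1 h).2.val) *
          X (2 * n + h.val % 2) ^ g) (cst v (2 * M + 1) * Tb h) := by
    intro α h
    have h2 := hsum ℕ (Finset.range (2 * M + 1)) (fun g =>
      algebraMap K A (S h.val (lam h.val) (μ h) (i h) g (α.1 h).1.val (α.1 h).2.val) *
          X (2 * n + h.val % 2) ^ g) (Tb h) (hT0 h) fun g _ => hterm α h g
    rw [Finset.card_range] at h2
    push_cast at h2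
    exact h2
  have hcst0 : 0 ≤ cst v (2 * (M : ℝ) + 1) := by
    refine (cst_pos v ?_).le
    have : (0 : ℝ) ≤ M := Nat.cast_nonneg _
    linarith
  have e0 : 1 ≤ a (2 * n) := ha _ (by omega)
  have e1 : 1 ≤ a (2 * n + 1) := ha _ (by omega)
  have hP : ∀ α : Idx n M δ e, N (∏ t : Fin 2, X (2 * n + t.val) ^ (α.2 t).val)
      ((a (2 * n) * a (2 * n + 1)) ^ δ) := by
    intro α
    have h2 := hprod (Fin 2) Finset.univ (fun t => X (2 * n + t.val) ^ (α.2 t).val)
      (fun t => a (2 * n + t.val) ^ (α.2 t).val) fun t _ =>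
        hpow _ _ (hBd.ref t.val t.isLt) _
    refine hN.mono _ _ _ h2 ?_
    rw [Fin.prod_univ_two, mul_pow]
    refine mul_le_mul ?_ ?_ (pow_nonneg (by
      show 0 ≤ a (2 * n + 1)
      linarith) _) (pow_nonneg (by linarith) _)
    · exact pow_le_pow_right₀ e0 (α.2 0).isLt.le
    · exact pow_le_pow_right₀ e1 (α.2 1).isLt.le
  set P : ℝ := (a (2 * n) * a (2 * n + 1)) ^ δ with hPdef
  have hP0 : 0 ≤ P := pow_nonneg (mul_nonneg (by linarith) (by linarith)) _
  have hQ0 : 0 ≤ ∏ h : Fin (2 * n), (cst v (2 * M + 1) * Tb h) :=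
    Finset.prod_nonneg fun h _ => mul_nonneg hcst0 (hT0 h)
  have hall : ∀ α : Idx n M δ e, N (algebraMap K A (c α) *
      (∏ h : Fin (2 * n), ∑ g ∈ Finset.range (2 * M + 1),
        algebraMap K A (S h.val (lam h.val) (μ h) (i h) g (α.1 h).1.val (α.1 h).2.val) *
          X (2 * n + h.val % 2) ^ g) *
      ∏ t : Fin 2, X (2 * n + t.val) ^ (α.2 t).val)
      (s * (∏ h : Fin (2 * n), (cst v (2 * M + 1) * Tb h)) * P) := by
    intro α
    refine hN.mul _ _ _ _ (hN.mul _ _ _ _ (hN.mono _ _ _ (hN.const _) (hs α)) ?_) (hP α)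
    exact hprod (Fin (2 * n)) Finset.univ _ _ fun h _ => hS α h
  have hfin := hsum (Idx n M δ e) Finset.univ _ _
    (mul_nonneg (mul_nonneg hs0 hQ0) hP0) fun α _ => hall α
  have hval : cst v ((Finset.univ : Finset (Idx n M δ e)).card : ℝ) *
      (s * (∏ h : Fin (2 * n), (cst v (2 * M + 1) * Tb h)) * P) =
      (cst v ((Fintype.card (Idx n M δ e) : ℝ) * (2 * M + 1) ^ (2 * n)) * s *
          (∏ h : Fin (2 * n), (B (h.val % 2) v) ^ (4 ^ e (h.val / 2) * (M + 1))) *
          ((∏ h : Fin (2 * n), RfB T n M e a L h.val (μ h) (i h)) *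
            (a (2 * n) * a (2 * n + 1)) ^ δ)) := by
    rw [Finset.card_univ, cst_mul, cst_pow, Finset.prod_mul_distrib, Finset.prod_const,
      Finset.card_univ, Fintype.card_fin, hTb, Finset.prod_mul_distrib, hPdef]
    ring
  rw [hval] at hfin
  exact hfin

end Pool.Agent.Helper87.SG2
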